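import Pool.Agent.Helper24.KF.TD
import Pool.Agent.Helper24.KE.Fin

/-!
# Euler characteristics of complexes of motives
-/

set_option autoImplicit false
set_option linter.unusedSectionVars false

open CategoryTheory Limits AlgebraicGeometry MvPolynomial Pool.Agent.Y116.UV
  Pool.Agent.Q282.UM Pool.Agent.Q282.UK Pool.Agent.Helper62.EC Pool.Agent.Helper24.KD
  Pool.Agent.Helper24.KE

open Pool.Agent.Helper24.KZ (alt FinSupp)

namespace Pool.Agent.Helper24.KF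

universe w w' v u

section

variable {C : Type u} [Category.{v} C] [Preadditive C] {𝕜 : Type w} [Field 𝕜]
  (F : C ⥤ ModuleCat.{w} 𝕜) [F.Additive]

/-- The vector space `H^n(F(K))`, for a complex `K`. -/
noncomputable def Hn (n : ℤ) (K : HK C) : ModuleCat.{w} 𝕜 :=
  (HomotopyCategory.homologyFunctor (ModuleCat.{w} 𝕜) (ComplexShape.up ℤ) n).obj (onHK F K)

/-- The spaces `H^n(F(K))` have finite dimension, and almost all of them are zero. -/
def FinCoh (K : HK C) : Prop :=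
  (∀ n, Module.Finite 𝕜 (Hn F n K)) ∧
    (Function.support fun n => Module.finrank 𝕜 (Hn F n K)).Finite

/-- The Euler characteristic `∑ (-1)^n dim H^n(F(K))`. -/
noncomputable def chi (K : HK C) : ℤ :=
  ∑ᶠ n : ℤ, ((n.negOnePow : ℤˣ) : ℤ) * (Module.finrank 𝕜 (Hn F n K) : ℤ)

variable {F} [HasBinaryBiproducts C] [HasZeroObject C]

lemma hn_iso (n : ℤ) (K : HK C) : Nonempty (HC F n K ≅ Hn F n K) := by
  have e1 : onHK F (K⟦n⟧) ≅ (onHK F K)⟦n⟧ :=
    ((F.mapHomotopyCategory (ComplexShape.up ℤ)).commShiftIso n).app K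
  exact ⟨(HomotopyCategory.homologyFunctor (ModuleCat.{w} 𝕜) (ComplexShape.up ℤ) 0).mapIso e1 ≪≫
    ((HomotopyCategory.homologyFunctor (ModuleCat.{w} 𝕜) (ComplexShape.up ℤ) 0).isoShift n).app
      (onHK F K)⟩

lemma hn_finrank (K : HK C) : (fun n => Module.finrank 𝕜 (Hn F n K)) = hdim F K :=
  funext fun n => (finrank_iso (hn_iso n K)).symm

lemma rankOK_iff (K : HK C) : RankOK F K ↔ FinCoh F K := by
  unfold FinCoh
  rw [hn_finrank]
  refine and_congr (forall_congr' fun n => ⟨fun h => finite_iso (hn_iso n K) h, fun h => ?_⟩)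
    Iff.rfl
  exact finite_iso ⟨(hn_iso n K).some.symm⟩ h

lemma chi_eq (K : HK C) : chi F K = alt (hdim F K) := by
  rw [← hn_finrank]
  rfl

lemma tOne_iff {K : HK C} {c : ℤ} : TOne F K c ↔ FinCoh F K ∧ chi F K = c := by
  rw [← rankOK_iff, chi_eq]
  rfl

lemma tTwo_iff' {𝕜' : Type w'} [Field 𝕜'] {G : C ⥤ ModuleCat.{w'} 𝕜'} [G.Additive] {K : HK C}
    {c : ℤ} : TTwo F G K c ↔ FinCoh F K ∧ FinCoh G K ∧ chi F K - chi G K = c := by
  rw [← rankOK_iff, ← rankOK_iff, chi_eq, chi_eq]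
  rfl

end

section bounds

/-- The size `deg F + log ‖F‖ / log (log ‖F‖ + 3)`, where `‖F‖` is the sum of the absolute values of
the coefficients. -/
noncomputable def size {r : ℕ} (F : MvPolynomial (Fin r) ℤ) : ℝ :=
  F.totalDegree + ell (Real.log (nrm F))

lemma size_nonneg {r : ℕ} (F : MvPolynomial (Fin r) ℤ) : 0 ≤ size F :=
  add_nonneg (Nat.cast_nonneg _) (ell_nonneg (Real.log_natCast_nonneg _))

/-- The defects `c` of the open sets `D(F)`, `F ∈ ℤ[x_1, …, x_r]`, satisfy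
`R c ≤ o((size F)^κ)`. -/
def BoundZ (Q : Sch ℚ → ℤ → Prop) (R : ℤ → ℤ) (r κ : ℕ) : Prop :=
  ∀ ε : ℝ, 0 < ε → ∃ B : ℝ, ∀ F : MvPolynomial (Fin r) ℤ, ∃ c : ℤ, Q (U (toQ F)) c ∧
    (R c : ℝ) ≤ ε * size F ^ κ + B

/-- The defects `c` of the open sets `D(F)`, `F ∈ k[x_1, …, x_r]`, are `o(deg F)`. -/
def BoundK {k : Type} [Field k] (Q : Sch k → ℤ → Prop) (r : ℕ) : Prop :=
  ∀ ε : ℝ, 0 < ε → ∃ B : ℝ, ∀ F : MvPolynomial (Fin r) k, ∃ c : ℤ, Q (U F) c ∧
    |(c : ℝ)| ≤ ε * F.totalDegree + B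

variable {Q : Sch ℚ → ℤ → Prop} (hQ : Dfc True Q)
  (hs : ∀ m : ℕ, Q (aff ℚ (MvPolynomial (Fin m) ℚ)) 0)

include hQ

lemma z_both {r κ : ℕ} (h : BoundZ Q abs r κ) : Both szh Q r κ := by
  intro ε hε
  obtain ⟨B, hB⟩ := h ε hε
  refine ⟨B, of_int hQ (R := fun c x => |(c : ℝ)| ≤ x) (fun c x y hxy hx => hx.trans hxy) hε
    fun F => ?_⟩
  obtain ⟨c, h1, h2⟩ := hB F
  refine ⟨c, h1, ?_⟩
  rw [Int.cast_abs] at h2
  exact h2

lemma z_upper {r κ : ℕ} (h : BoundZ Q id r κ) : Upper szh Q r κ := by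
  intro ε hε
  obtain ⟨B, hB⟩ := h ε hε
  refine ⟨B, of_int hQ (R := fun c x => (c : ℝ) ≤ x) (fun c x y hxy hx => hx.trans hxy) hε
    fun F => ?_⟩
  obtain ⟨c, h1, h2⟩ := hB F
  exact ⟨c, h1, h2⟩

lemma z_lower {r κ : ℕ} (h : BoundZ Q Neg.neg r κ) : Upper szh (fun X c => Q X (-c)) r κ := by
  intro ε hε
  obtain ⟨B, hB⟩ := h ε hε
  refine ⟨B, of_int hQ.neg (R := fun c x => (c : ℝ) ≤ x) (fun c x y hxy hx => hx.trans hxy) hε
    fun F => ?_⟩
  obtain ⟨c, h1, h2⟩ := hB F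
  refine ⟨-c, ?_, h2⟩
  rw [neg_neg]
  exact h1

include hs

/-- Two-sided bounds. -/
theorem main_abs {d κ : ℕ} (hκ : 1 ≤ κ) (h : BoundZ Q abs (d + κ) κ) (X : Sch ℚ) (hX : FT True X)
    (hd : topologicalKrullDim X.left ≤ d) : Q X 0 := by
  obtain ⟨κ, rfl⟩ : ∃ κ', κ = κ' + 1 := ⟨κ - 1, by omega⟩
  exact zero_of_both hQ hs size_ht (z_both hQ h) X hX hd

/-- One-sided bounds. -/
theorem main_one {d κ : ℕ} (hκ : 1 ≤ κ) {R : ℤ → ℤ} (hR : R = id ∨ R = Neg.neg)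
    (h : BoundZ Q R (d + κ) κ) (h' : BoundZ Q R (d + κ + 1) κ) (X : Sch ℚ) (hX : FT True X)
    (hd : topologicalKrullDim X.left ≤ d) : Q X 0 := by
  obtain ⟨κ, rfl⟩ : ∃ κ', κ = κ' + 1 := ⟨κ - 1, by omega⟩
  rcases hR with rfl | rfl
  · exact zero_of_upper hQ hs size_ht (z_upper hQ h) (z_upper hQ h') X hX hd
  · have h1 := zero_of_upper hQ.neg (by
      intro m
      rw [neg_zero]
      exact hs m) size_ht (z_lower hQ h) (z_lower hQ h') X hX hd
    rwa [neg_zero] at h1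

/-- All dimensions. -/
theorem main_all {R : ℤ → ℤ} (hR : R = id ∨ R = Neg.neg)
    (h : ∀ s : ℕ, ∃ r₀ : ℕ, ∀ r, r₀ ≤ r → BoundZ Q R r (r - s)) (X : Sch ℚ) (hX : FT True X) :
    Q X 0 := by
  have h1 : ∀ (m : ℕ) (X : Sch ℚ), FT True X → topologicalKrullDim X.left ≤ m → Q X 0 := by
    intro m X hX hm
    rcases hR with rfl | rfl
    · exact zero_of_all hQ hs size_ht (fun s => by
        obtain ⟨r₀, hr⟩ := h s
        exact ⟨r₀, fun r h1 => z_upper hQ (hr r h1)⟩) m X hX hm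
    · have h1 := zero_of_all hQ.neg (by
        intro m
        rw [neg_zero]
        exact hs m) size_ht (fun s => by
        obtain ⟨r₀, hr⟩ := h s
        exact ⟨r₀, fun r h1 => z_lower hQ (hr r h1)⟩) m X hX hm
      rwa [neg_zero] at h1
  refine of_affine' (P := fun X => Q X 0) hQ.cls.iso hQ.cls.total (fun B _ _ _ => ?_) X hX
  obtain ⟨N, hN⟩ := Pool.Agent.Helper24.KZ.exists_dim_aff (k := ℚ) B
  exact h1 N _ (ft_aff True) hN

omit hQ hs in
/-- The converse. -/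
lemma to_boundZ {r : ℕ} (h : ∀ F : MvPolynomial (Fin r) ℚ, Q (U F) 0) {R : ℤ → ℤ} (hR : R 0 = 0)
    (κ : ℕ) : BoundZ Q R r κ := by
  intro ε hε
  refine ⟨0, fun F => ⟨0, h _, ?_⟩⟩
  rw [hR, Int.cast_zero, add_zero]
  have := size_nonneg F
  positivity

end bounds

section field

variable {k : Type} [Field k] [CharZero k] {Q : Sch k → ℤ → Prop} (hQ : Dfc True Q)
  (hs : ∀ m : ℕ, Q (aff k (MvPolynomial (Fin m) k)) 0)

omit [CharZero k] in
lemma to_boundK {r : ℕ} (h : ∀ F : MvPolynomial (Fin r) k, Q (U F) 0) : BoundK Q r := by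
  intro ε hε
  refine ⟨0, fun F => ⟨0, h _, ?_⟩⟩
  rw [Int.cast_zero, abs_zero, add_zero]
  positivity

include hQ hs

theorem main_field {d : ℕ} (h : BoundK Q (d + 1)) (X : Sch k) (hX : FT True X)
    (hd : topologicalKrullDim X.left ≤ d) : Q X 0 := by
  refine zero_of_both (m := d) (κ := 0) hQ hs size_deg ?_ X hX hd
  intro ε hε
  obtain ⟨B, hB⟩ := h ε hε
  refine ⟨B, fun F => ?_⟩
  obtain ⟨c, h1, h2⟩ := hB F
  refine ⟨c, h1, ?_⟩
  change |(c : ℝ)| ≤ ε * (F.totalDegree : ℝ) ^ 1 + B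
  rw [pow_one]
  exact h2

omit [CharZero k] in
/-- The exact formula for principal open sets from the one for schemes. -/
lemma exact_open {d : ℕ} (h : ∀ X : Sch k, FT True X → topologicalKrullDim X.left ≤ d → Q X 0)
    (F : MvPolynomial (Fin (d + 1)) k) : Q (U F) 0 := by
  refine ring_open hQ.cls F ?_ (hs _)
  by_cases hg : Ideal.span {F} = ⊥
  · rw [hg]
    exact iso_alg hQ.cls (AlgEquiv.quotientBot k _).symm (hs _)
  · refine h _ (ft_aff True) ?_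
    rw [Pool.Agent.Z125.UN.topDim_aff]
    exact Pool.Agent.Z125.UN.dim_quot _ hg

end field

end Pool.Agent.Helper24.KF
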