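import Pool.Agent.Helper24.KF.Hn

/-!
# Kernels and cokernels of natural maps of additive functors
-/

set_option autoImplicit false
set_option linter.unusedSectionVars false

open CategoryTheory Limits AlgebraicGeometry MvPolynomial Pool.Agent.Y116.UV
  Pool.Agent.Q282.UM Pool.Agent.Q282.UK Pool.Agent.Helper62.EC Pool.Agent.Helper24.KD
  Pool.Agent.Helper24.KE

namespace Pool.Agent.Helper24.KF

universe w w' v u

section

variable {C : Type u} [Category.{v} C] [Preadditive C] {𝕜 : Type w} [Field 𝕜]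
  {F G : C ⥤ ModuleCat.{w} 𝕜}

/-- The functor `N ↦ ker (α N)`. -/
noncomputable def kerF (α : F ⟶ G) : C ⥤ ModuleCat.{w} 𝕜 where
  obj X := kernel (α.app X)
  map {X Y} f := kernel.map (α.app X) (α.app Y) (F.map f) (G.map f) (α.naturality f).symm
  map_id X := by
    rw [← cancel_mono (kernel.ι (α.app X))]
    simp
  map_comp {X Y Z} f g := by
    rw [← cancel_mono (kernel.ι (α.app Z))]
    simp

/-- The functor `N ↦ coker (α N)`. -/
noncomputable def cokerF (α : F ⟶ G) : C ⥤ ModuleCat.{w} 𝕜 where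
  obj X := cokernel (α.app X)
  map {X Y} f := cokernel.map (α.app X) (α.app Y) (F.map f) (G.map f) (α.naturality f).symm
  map_id X := by
    rw [← cancel_epi (cokernel.π (α.app X))]
    simp
  map_comp {X Y Z} f g := by
    rw [← cancel_epi (cokernel.π (α.app X))]
    simp

variable [F.Additive] [G.Additive] (α : F ⟶ G)

instance : (kerF α).Additive where
  map_add {X Y f g} := by
    change kernel.map (α.app X) (α.app Y) (F.map (f + g)) (G.map (f + g)) (α.naturality (f + g)).symm =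
      kernel.map (α.app X) (α.app Y) (F.map f) (G.map f) (α.naturality f).symm +
        kernel.map (α.app X) (α.app Y) (F.map g) (G.map g) (α.naturality g).symm
    rw [← cancel_mono (kernel.ι (α.app Y))]
    simp [Preadditive.add_comp, Preadditive.comp_add, F.map_add]

instance : (cokerF α).Additive where
  map_add {X Y f g} := by
    change cokernel.map (α.app X) (α.app Y) (F.map (f + g)) (G.map (f + g)) (α.naturality (f + g)).symm =
      cokernel.map (α.app X) (α.app Y) (F.map f) (G.map f) (α.naturality f).symm +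
        cokernel.map (α.app X) (α.app Y) (F.map g) (G.map g) (α.naturality g).symm
    rw [← cancel_epi (cokernel.π (α.app X))]
    simp [Preadditive.add_comp, Preadditive.comp_add, G.map_add]

omit [F.Additive] [G.Additive] in
/-- The map is an isomorphism if and only if kernel and cokernel are zero. -/
lemma iso_iff (X : C) : IsIso (α.app X) ↔
    Subsingleton ((kerF α).obj X) ∧ Subsingleton ((cokerF α).obj X) := by
  constructor
  · intro h
    exact ⟨ModuleCat.subsingleton_of_isZero (isZero_kernel_of_mono (α.app X)),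
      ModuleCat.subsingleton_of_isZero (isZero_cokernel_of_epi (α.app X))⟩
  · rintro ⟨h1, h2⟩
    have h3 : IsZero (kernel (α.app X)) := @ModuleCat.isZero_of_subsingleton _ _ _ h1
    have h4 : IsZero (cokernel (α.app X)) := @ModuleCat.isZero_of_subsingleton _ _ _ h2
    have := Preadditive.mono_of_isZero_kernel _ h3
    have := Preadditive.epi_of_isZero_cokernel _ h4
    exact isIso_of_mono_of_epi _

end

section sum

variable {C : Type u} [Category.{v} C] [Preadditive C] [HasBinaryBiproducts C] [HasZeroObject C]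
  {𝕜 : Type w} [Field 𝕜] {𝕜' : Type w'} [Field 𝕜'] (F : C ⥤ ModuleCat.{w} 𝕜) [F.Additive]
  (G : C ⥤ ModuleCat.{w'} 𝕜') [G.Additive]

/-- The sum of two Euler characteristics. -/
def TSum (K : HK C) (c : ℤ) : Prop := FinCoh F K ∧ FinCoh G K ∧ chi F K + chi G K = c

variable {F G} in
lemma tSum_iff {K : HK C} {c : ℤ} : TSum F G K c ↔ ∃ a b, TOne F K a ∧ TOne G K b ∧ a + b = c := by
  constructor
  · rintro ⟨h1, h2, h3⟩
    exact ⟨_, _, tOne_iff.mpr ⟨h1, rfl⟩, tOne_iff.mpr ⟨h2, rfl⟩, h3⟩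
  · rintro ⟨a, b, h1, h2, h3⟩
    rw [tOne_iff] at h1 h2
    exact ⟨h1.1, h2.1, by rw [h1.2, h2.2]; exact h3⟩

theorem tSum : TD (TSum F G) where
  iso e h := by
    obtain ⟨a, b, h1, h2, h3⟩ := tSum_iff.mp h
    exact tSum_iff.mpr ⟨a, b, (tOne F).iso e h1, (tOne G).iso e h2, h3⟩
  mid hd h h' := by
    obtain ⟨a, b, h1, h2, h3⟩ := tSum_iff.mp h
    obtain ⟨a', b', h1', h2', h3'⟩ := tSum_iff.mp h'
    exact tSum_iff.mpr ⟨_, _, (tOne F).mid hd h1 h1', (tOne G).mid hd h2 h2', by omega⟩
  third hd h h' := by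
    obtain ⟨a, b, h1, h2, h3⟩ := tSum_iff.mp h
    obtain ⟨a', b', h1', h2', h3'⟩ := tSum_iff.mp h'
    exact tSum_iff.mpr ⟨_, _, (tOne F).third hd h1 h1', (tOne G).third hd h2 h2', by omega⟩
  first hd h h' := by
    obtain ⟨a, b, h1, h2, h3⟩ := tSum_iff.mp h
    obtain ⟨a', b', h1', h2', h3'⟩ := tSum_iff.mp h'
    exact tSum_iff.mpr ⟨_, _, (tOne F).first hd h1 h1', (tOne G).first hd h2 h2', by omega⟩
  uniq h1 h2 := h1.2.2.symm.trans h2.2.2

variable {F G}

lemma sum_inZero {M : C} {c : ℤ} : TSum F G (inZero M) c ↔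
    Module.Finite 𝕜 (F.obj M) ∧ Module.Finite 𝕜' (G.obj M) ∧
      (Module.finrank 𝕜 (F.obj M) : ℤ) + (Module.finrank 𝕜' (G.obj M) : ℤ) = c := by
  rw [tSum_iff]
  constructor
  · rintro ⟨a, b, h1, h2, h3⟩
    rw [one_inZero] at h1 h2
    exact ⟨h1.1, h2.1, by rw [h1.2, h2.2]; exact h3⟩
  · rintro ⟨h1, h2, h3⟩
    exact ⟨_, _, one_inZero.mpr ⟨h1, rfl⟩, one_inZero.mpr ⟨h2, rfl⟩, h3⟩

lemma sum_inZero_zero {M : C} (h : TSum F G (inZero M) 0) :
    Subsingleton (F.obj M) ∧ Subsingleton (G.obj M) := by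
  obtain ⟨h1, h2, h3⟩ := sum_inZero.mp h
  have a1 : Module.finrank 𝕜 (F.obj M) = 0 := by omega
  have a2 : Module.finrank 𝕜' (G.obj M) = 0 := by omega
  exact ⟨Module.finrank_zero_iff.mp a1, Module.finrank_zero_iff.mp a2⟩

variable [HasFiniteBiproducts C] {k : Type} [Field k] {D : Weights k C} (hD : IsWeightComplex D)

include hD

theorem sum_zero {n : ℤ} {N : ℕ} (h : ∀ Y : Sch k, IsSmoothProjective Y →
    topologicalKrullDim Y.left ≤ N → Subsingleton (F.obj ((D.tw n).obj (D.h Y))) ∧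
      Subsingleton (G.obj ((D.tw n).obj (D.h Y)))) (X : Sch k)
    (hX : FT True X) (hN : topologicalKrullDim X.left ≤ N) : QT (TSum F G) D n X 0 :=
  tSum_iff.mpr ⟨0, 0, one_zero hD (fun Y a b => (h Y a b).1) X hX hN,
    one_zero hD (fun Y a b => (h Y a b).2) X hX hN, rfl⟩

end sum

end Pool.Agent.Helper24.KF
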