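import Pool.Agent.Helper24.KF.Ker

/-!
# The asymptotic theorem without knowledge of the points
-/

set_option autoImplicit false
set_option linter.unusedSectionVars false

open CategoryTheory Limits AlgebraicGeometry MvPolynomial Pool.Agent.Y116.UV
  Pool.Agent.Q282.UM Pool.Agent.Q282.UK Pool.Agent.Helper62.EC Pool.Agent.Helper24.KD
  Pool.Agent.Helper24.KE

namespace Pool.Agent.Helper24.KF

universe v u

/-- A general estimate. -/
lemma abs_aux {n : ℕ} {c s a b : ℤ} (h : (n : ℤ) * (c - s) = a - b) :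
    (n : ℝ) * |(c : ℝ)| ≤ n * |(s : ℝ)| + (|(a : ℝ)| + |(b : ℝ)|) := by
  have hn : (0 : ℝ) ≤ n := Nat.cast_nonneg n
  have h1 : (n : ℝ) * (c : ℝ) = n * s + (a - b) := by
    have h2 : (n : ℝ) * ((c : ℝ) - s) = a - b := by exact_mod_cast h
    linarith
  have h3 : (n : ℝ) * |(c : ℝ)| = |(n : ℝ) * c| := by rw [abs_mul, abs_of_nonneg hn]
  have h4 : (n : ℝ) * |(s : ℝ)| = |(n : ℝ) * s| := by rw [abs_mul, abs_of_nonneg hn]
  rw [h3, h4, h1]
  refine (abs_add_le _ _).trans ?_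
  have := abs_sub (a : ℝ) b
  linarith

section

variable {k : Type} [Field k] {sep : Prop} {Q : Sch k → ℤ → Prop} (hQ : Dfc sep Q)

include hQ

lemma line_iff (m : ℕ) (a : k) (c : ℤ) : Q (V (X 0 - C a : MvPolynomial (Fin (m + 1)) k)) c ↔
    Q (aff k (MvPolynomial (Fin m) k)) c := by
  have e : (MvPolynomial (Fin (m + 1)) k ⧸ RingHom.ker (sub0 m a)) ≃ₐ[k] MvPolynomial (Fin m) k :=
    Ideal.quotientKerAlgEquivOfSurjective (sub0_surj m a)
  rw [ker_sub0] at e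
  exact ⟨fun h => isoQ hQ e h, fun h => isoQ hQ e.symm h⟩

lemma one_iso {m : ℕ} {c : ℤ} : Q (U (1 : MvPolynomial (Fin m) k)) c ↔
    Q (aff k (MvPolynomial (Fin m) k)) c := by
  have e : MvPolynomial (Fin m) k ≃ₐ[k] Localization.Away (1 : MvPolynomial (Fin m) k) :=
    (IsLocalization.atUnits (MvPolynomial (Fin m) k)
      (Submonoid.powers (1 : MvPolynomial (Fin m) k))
      (S := Localization.Away (1 : MvPolynomial (Fin m) k))
      (by rintro _ ⟨n, rfl⟩; simp)).restrictScalars k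
  exact ⟨fun h => isoQ hQ e.symm h, fun h => isoQ hQ e h⟩

/-- The empty hypersurface. -/
lemma empty_V {m : ℕ} {s c : ℤ} (hs : Q (aff k (MvPolynomial (Fin m) k)) s)
    (h : Q (V (1 : MvPolynomial (Fin m) k)) c) : c = 0 := by
  have h1 := totalQ hQ (1 : MvPolynomial (Fin m) k) h ((one_iso hQ).mpr hs)
  have := hQ.uniq h1 hs
  omega

variable [CharZero k]

/-- One copy. -/
lemma copy_step' {m : ℕ} (g : MvPolynomial (Fin m) k) (n : ℕ) {a b s : ℤ}
    (hs : Q (aff k (MvPolynomial (Fin m) k)) s)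
    (h1 : Q (V (up g * pr k m n)) a) (h2 : Q (V (up g * pr k m (n + 1))) b) :
    Q (V g) (a + s - b) := by
  rw [pr_succ, ← mul_assoc] at h2
  have h3 := two_closed hQ (up g * pr k m n) (X 0 - C (n : k)) h1
    ((line_iff hQ m n s).mpr hs) h2
  obtain ⟨e⟩ := quot_surj (sub0 m (n : k)) (sub0_surj m _) (ker_sub0 m (n : k)) (up g * pr k m n)
  have h4 := isoQ hQ e h3
  obtain ⟨c, hc, h5⟩ := sub0_pr (k := k) m n
  have h6 : Ideal.span {sub0 m (n : k) (up g * pr k m n)} = Ideal.span {g} := by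
    rw [map_mul, sub0_up, h5]
    exact Ideal.span_singleton_mul_right_unit (by
      rw [isUnit_iff_exists_inv]
      exact ⟨C c⁻¹, by rw [← C_mul, mul_inv_cancel₀ hc, C_1]⟩) g
  rw [h6] at h4
  exact h4

/-- Many copies. -/
theorem copies' {m : ℕ} {e : MvPolynomial (Fin (m + 1)) k → ℤ} (he : ∀ F, Q (V F) (e F))
    {s : ℤ} (hs : Q (aff k (MvPolynomial (Fin m) k)) s) (g : MvPolynomial (Fin m) k) :
    ∃ c, Q (V g) c ∧ ∀ n : ℕ, (n : ℤ) * (c - s) = e (up g * pr k m 0) - e (up g * pr k m n) := by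
  have h1 : ∀ n, Q (V g) (e (up g * pr k m n) + s - e (up g * pr k m (n + 1))) := fun n =>
    copy_step' hQ g n hs (he _) (he _)
  refine ⟨_, h1 0, fun n => ?_⟩
  induction n with
  | zero => simp
  | succ n ih =>
    have h2 := hQ.uniq (h1 0) (h1 n)
    push_cast
    rw [add_mul, ih, one_mul, h2]
    ring

variable {sz : ∀ m, MvPolynomial (Fin m) k → ℝ}

omit [CharZero k] in
lemma line_exists {m : ℕ} {e : MvPolynomial (Fin (m + 1)) k → ℤ} (he : ∀ F, Q (V F) (e F)) :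
    Q (aff k (MvPolynomial (Fin m) k)) (e (X 0 - C 0)) := (line_iff hQ m 0 _).mp (he _)

variable (hz : Size sz)

include hz

/-- One variable less, and one power less. -/
theorem drop' {m κ : ℕ} (h : Small sz Q (m + 1) (κ + 1)) : Small sz Q m κ := by
  obtain ⟨e, he, hB⟩ := h.fn hQ
  have hs := line_exists hQ he
  set s := e (X 0 - C 0) with hsdef
  obtain ⟨K, hK, hK2⟩ := hz.copies
  intro ε hε
  have hd : (0 : ℝ) < 2 * (K + 1) ^ (κ + 1) * 2 ^ κ := by positivity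
  obtain ⟨B, hB⟩ := hB (ε / (2 * (K + 1) ^ (κ + 1) * 2 ^ κ)) (by positivity)
  refine ⟨ε * 2 ^ κ + 2 * |B| + |(s : ℝ)|, fun g => ?_⟩
  obtain ⟨c, h1, h2⟩ := copies' hQ he hs g
  refine ⟨c, h1, ?_⟩
  set l := sz m g with hl
  have hl0 : 0 ≤ l := hz.nonneg m g
  set n : ℕ := ⌈l⌉₊ + 1 with hn
  have hn1 : (1 : ℝ) ≤ n := by
    rw [hn]
    push_cast
    linarith [Nat.cast_nonneg (α := ℝ) ⌈l⌉₊]
  have hn2 : l ≤ n := by
    rw [hn]
    push_cast
    linarith [Nat.le_ceil l]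
  have hn3 : (n : ℝ) ≤ l + 2 := by
    rw [hn]
    push_cast
    linarith [Nat.ceil_lt_add_one hl0]
  set ε' := ε / (2 * (K + 1) ^ (κ + 1) * 2 ^ κ) with hε'
  have hε'0 : 0 < ε' := by positivity
  have hb : ∀ j : ℕ, (j : ℝ) ≤ n → |(e (up g * pr k m j) : ℝ)| ≤
      ε' * ((K + 1) * n) ^ (κ + 1) + |B| := by
    intro j hj
    refine (hB _).trans ?_
    have h3 : sz (m + 1) (up g * pr k m j) ≤ (K + 1) * n := by
      refine (hK2 m g j).trans ?_
      have h4 : K * j ≤ K * n := mul_le_mul_of_nonneg_left hj hK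
      nlinarith
    have h4 : sz (m + 1) (up g * pr k m j) ^ (κ + 1) ≤ ((K + 1) * n) ^ (κ + 1) :=
      pow_le_pow_left₀ (hz.nonneg _ _) h3 _
    have h5 := mul_le_mul_of_nonneg_left h4 hε'0.le
    linarith [le_abs_self B]
  have h3 : (n : ℝ) * |(c : ℝ)| ≤ n * |(s : ℝ)| + 2 * (ε' * ((K + 1) * n) ^ (κ + 1) + |B|) := by
    refine (abs_aux (h2 n)).trans ?_
    have h6 := hb 0 (by push_cast; linarith)
    have h7 := hb n le_rfl
    linarith
  have h4 : 2 * (ε' * ((K + 1) * n) ^ (κ + 1)) = n * (ε / 2 ^ κ * (n : ℝ) ^ κ) := by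
    rw [hε', mul_pow, pow_succ (K + 1), pow_succ (n : ℝ)]
    field_simp
  have h5 : |(c : ℝ)| ≤ |(s : ℝ)| + (ε / 2 ^ κ * (n : ℝ) ^ κ + 2 * |B|) := by
    have h6 : (n : ℝ) * |(c : ℝ)| ≤ n * (|(s : ℝ)| + (ε / 2 ^ κ * (n : ℝ) ^ κ + 2 * |B|)) := by
      refine h3.trans ?_
      rw [mul_add 2, h4]
      have h7 : 2 * |B| ≤ n * (2 * |B|) := by nlinarith [abs_nonneg B]
      rw [mul_add, mul_add]
      linarith
    exact le_of_mul_le_mul_left h6 (by linarith)
  refine h5.trans ?_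
  have h6 : (n : ℝ) ^ κ ≤ 2 ^ κ * (l ^ κ + 2 ^ κ) := by
    refine (pow_le_pow_left₀ (by linarith) hn3 κ).trans ?_
    refine (add_pow_le hl0 (by norm_num) κ).trans ?_
    refine mul_le_mul_of_nonneg_right ?_ (by positivity)
    exact pow_le_pow_right₀ (by norm_num) (Nat.sub_le _ _)
  have h7 : ε / 2 ^ κ * (n : ℝ) ^ κ ≤ ε * l ^ κ + ε * 2 ^ κ := by
    refine (mul_le_mul_of_nonneg_left h6 (by positivity)).trans (le_of_eq ?_)
    have h8 : (2 : ℝ) ^ κ ≠ 0 := by positivity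
    rw [← mul_assoc, div_mul_cancel₀ _ h8, mul_add]
  linarith

/-- The last step. -/
theorem last' {m : ℕ} (h : Small sz Q (m + 1) 1) : (∀ g : MvPolynomial (Fin m) k, Q (V g) 0) ∧
    Q (aff k (MvPolynomial (Fin m) k)) 0 := by
  obtain ⟨e, he, hB⟩ := h.fn hQ
  have hs := line_exists hQ he
  set s := e (X 0 - C 0) with hsdef
  obtain ⟨K, hK, hK2⟩ := hz.copies
  obtain ⟨B, hB⟩ := hB (1 / (2 * (K + 1))) (by positivity)
  have main : ∀ g : MvPolynomial (Fin m) k, Q (V g) s := by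
    intro g
    obtain ⟨c, h1, h2⟩ := copies' hQ he hs g
    rcases eq_or_ne c s with hc | hc
    · rwa [hc] at h1
    exfalso
    have hc1 : (1 : ℝ) ≤ |((c - s : ℤ) : ℝ)| := by
      have : (1 : ℤ) ≤ |c - s| := Int.one_le_abs (sub_ne_zero.mpr hc)
      exact_mod_cast this
    have hl0 : 0 ≤ sz m g := hz.nonneg m g
    obtain ⟨n, hn⟩ := exists_nat_gt (2 * (|(e (up g * pr k m 0) : ℝ)| + sz m g + |B|))
    have h4 : ((n : ℤ) * (c - s : ℤ) : ℝ) =
        (e (up g * pr k m 0) : ℝ) - (e (up g * pr k m n) : ℝ) := by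
      exact_mod_cast h2 n
    have h5 : (n : ℝ) * |((c - s : ℤ) : ℝ)| = |((n : ℤ) * (c - s : ℤ) : ℝ)| := by
      rw [abs_mul]
      congr 1
      push_cast
      rw [abs_of_nonneg (Nat.cast_nonneg n)]
    have h6 : (n : ℝ) ≤ n * |((c - s : ℤ) : ℝ)| := by nlinarith [Nat.cast_nonneg (α := ℝ) n]
    rw [h5, h4] at h6
    have h7 := h6.trans (abs_sub _ _)
    have h8 := hB (up g * pr k m n)
    rw [pow_one] at h8
    have h9 : 1 / (2 * (K + 1)) * sz (m + 1) (up g * pr k m n) ≤ sz m g + (n : ℝ) / 2 := by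
      have h10 : 1 / (2 * (K + 1)) * sz (m + 1) (up g * pr k m n) ≤
          1 / (2 * (K + 1)) * (sz m g + K * n) :=
        mul_le_mul_of_nonneg_left (hK2 m g n) (by positivity)
      refine h10.trans ?_
      rw [mul_add]
      have h11 : 1 / (2 * (K + 1)) * sz m g ≤ sz m g := by
        have : 1 / (2 * (K + 1)) ≤ 1 := by
          rw [div_le_one (by positivity)]
          linarith
        nlinarith
      have h12 : 1 / (2 * (K + 1)) * (K * n) ≤ (n : ℝ) / 2 := by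
        rw [div_mul_eq_mul_div, one_mul, div_le_div_iff₀ (by positivity) (by norm_num)]
        nlinarith [Nat.cast_nonneg (α := ℝ) n]
      linarith
    linarith [le_abs_self B]
  have h0 : s = 0 := empty_V hQ hs (main 1)
  rw [h0] at main hs
  exact ⟨main, hs⟩

/-- Many steps. -/
theorem down' {m : ℕ} (κ : ℕ) (h : Small sz Q (m + (κ + 1)) (κ + 1)) : Small sz Q (m + 1) 1 := by
  induction κ with
  | zero => exact h
  | succ κ ih => exact ih (drop' hQ hz (m := m + (κ + 1)) h)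

omit hz [CharZero k] in
lemma both_small' {m κ : ℕ} (h : Both sz Q m κ) : Small sz Q m κ := by
  obtain ⟨B₀, hB₀⟩ := h 1 one_pos
  obtain ⟨s, hs, _⟩ := hB₀ 1
  have hs := (one_iso hQ).mp hs
  intro ε hε
  obtain ⟨B, hB⟩ := h ε hε
  refine ⟨B + |(s : ℝ)|, fun F => ?_⟩
  obtain ⟨c, h1, h2⟩ := hB F
  refine ⟨s - c, closedQ hQ F hs h1, ?_⟩
  push_cast
  have := abs_sub (s : ℝ) c
  linarith

omit [CharZero k] in
/-- Two one-sided bounds give a two-sided bound. -/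
theorem two_sided' {m κ : ℕ} (h0 : Upper sz Q m κ) (h1 : Upper sz Q (m + 1) κ) :
    Small sz Q m κ := by
  obtain ⟨K, hK, hK2⟩ := hz.graph
  obtain ⟨B₀, hB₀⟩ := h0 1 one_pos
  obtain ⟨s, hs, _⟩ := hB₀ 1
  have hs := (one_iso hQ).mp hs
  obtain ⟨B₁, hB₁⟩ := h1 1 one_pos
  obtain ⟨s', hs', _⟩ := hB₁ 1
  have hs' := (one_iso hQ).mp hs'
  intro ε hε
  obtain ⟨B, hB⟩ := h0 ε hε
  obtain ⟨B', hB'⟩ := h1 (ε / 2 ^ κ) (by positivity)
  refine ⟨|B| + |B'| + ε * K ^ κ + |(s : ℝ)| + |(s' : ℝ)|, fun F => ?_⟩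
  obtain ⟨c, h2, h3⟩ := hB F
  refine ⟨s - c, closedQ hQ F hs h2, ?_⟩
  obtain ⟨a, ha, h4⟩ := hK2 m F
  obtain ⟨c', h5, h6⟩ := hB' (X 0 * up (C a * F) - 1)
  have h7 : c' = s' - c := by
    refine hQ.uniq h5 ?_
    obtain ⟨e1⟩ := graph_equiv (C a * F)
    obtain ⟨e2⟩ := scalar_equiv F ha
    exact openQ hQ _ (isoQ hQ (e1.trans e2).symm h2) hs'
  rw [h7] at h6
  push_cast at h6 ⊢
  have hF := hz.nonneg m F
  have h8 : sz (m + 1) (X 0 * up (C a * F) - 1) ^ κ ≤ 2 ^ κ * (sz m F ^ κ + K ^ κ) := by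
    refine (pow_le_pow_left₀ (hz.nonneg _ _) h4 κ).trans ?_
    refine (add_pow_le hF hK κ).trans ?_
    refine mul_le_mul_of_nonneg_right ?_ (by positivity)
    exact pow_le_pow_right₀ (by norm_num) (Nat.sub_le _ _)
  have h9 : ε / 2 ^ κ * sz (m + 1) (X 0 * up (C a * F) - 1) ^ κ ≤ ε * sz m F ^ κ + ε * K ^ κ := by
    refine (mul_le_mul_of_nonneg_left h8 (by positivity)).trans (le_of_eq ?_)
    have : (2 : ℝ) ^ κ ≠ 0 := by positivity
    rw [← mul_assoc, div_mul_cancel₀ _ this, mul_add]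
  have h10 : 0 ≤ ε * K ^ κ := by positivity
  rw [abs_le]
  constructor <;> linarith [le_abs_self B, le_abs_self B', abs_nonneg B, abs_nonneg B',
    le_abs_self (s : ℝ), neg_abs_le (s : ℝ), le_abs_self (s' : ℝ), neg_abs_le (s' : ℝ),
    abs_nonneg (s : ℝ), abs_nonneg (s' : ℝ)]

end

section twists

variable {C : Type u} [Category.{v} C] [Preadditive C] [HasBinaryBiproducts C] [HasZeroObject C]
  [HasFiniteBiproducts C] {T : HK C → ℤ → Prop} (hT : TD T) {k : Type} [Field k]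
  {D : Weights k C} (hD : IsWeightComplex D)

include hT hD

/-- One affine space. -/
lemma spaceT_one {n : ℤ} {r : ℕ} (hp : QT T D (n - r) (aff k k) 0) :
    QT T D n (aff k (MvPolynomial (Fin r) k)) 0 := by
  have h1 := (bundleT hT hD (compl_id (k := k) k r) (n - r) 0).mpr hp
  have h2 : n - r + (((r + 1 : ℕ) : ℤ) - 1) = n := by push_cast; ring
  rw [h2] at h1
  exact isoQ (dfcT hT hD n) (jouOne k r) h1

variable [CharZero k] {sz : ∀ m, MvPolynomial (Fin m) k → ℝ} (hz : Size sz)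

include hz

/-- The points. -/
lemma pointT {m κ : ℕ} {j : ℤ} (h : Small sz (QT T D j) (m + (κ + 1)) (κ + 1)) :
    QT T D j (aff k k) 0 := by
  have hQ := dfcT hT hD j
  obtain ⟨h1, h2⟩ := last' hQ hz (down' hQ hz κ h)
  cases m with
  | zero => exact isoQ hQ (MvPolynomial.isEmptyAlgEquiv k (Fin 0)) h2
  | succ m =>
    have := Pool.Agent.Helper19.UA.closed_to_dim hQ.cls
      (Pool.Agent.Helper19.UA.closed_all hQ.cls h2 h1) k (by
        rw [ringKrullDim_eq_zero_of_field]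
        exact_mod_cast Nat.zero_le m)
    exact this

/-- **The asymptotic theorem for all twists up to `J`.** -/
theorem allT {m κ : ℕ} {J : ℤ}
    (h : ∀ j ≤ J, Small sz (QT T D j) (m + (κ + 1)) (κ + 1)) {j : ℤ} (hj : j ≤ J) (X : Sch k)
    (hX : FT True X) (hm : topologicalKrullDim X.left ≤ m) : QT T D j X 0 := by
  have hp : ∀ j ≤ J, QT T D j (aff k k) 0 := fun j hj => pointT hT hD hz (h j hj)
  have hs : ∀ r : ℕ, QT T D j (aff k (MvPolynomial (Fin r) k)) 0 := fun r =>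
    spaceT_one hT hD (hp _ (by omega))
  exact main_zero (dfcT hT hD j) hs hz (h j hj) X hX hm

end twists

end Pool.Agent.Helper24.KF
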