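import Pool.Agent.Helper24.KF.Rank

/-!
# Additive defects of complexes of motives
-/

set_option autoImplicit false
set_option linter.unusedSectionVars false

open CategoryTheory Limits AlgebraicGeometry MvPolynomial Pool.Agent.Y116.UV
  Pool.Agent.Q282.UM Pool.Agent.Q282.UK Pool.Agent.Helper62.EC Pool.Agent.Helper24.KD
  Pool.Agent.Helper24.KE

open Pool.Agent.Helper24.KZ (alt FinSupp alt_add alt_shift alt_two alt_eq_sum Bdd SumOf)

namespace Pool.Agent.Helper24.KF

universe w w' v u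

section

variable {C : Type u} [Category.{v} C] [Preadditive C] [HasBinaryBiproducts C] [HasZeroObject C]

/-- `T K c`: the defect of the complex `K` is `c`. It is additive for distinguished triangles. -/
structure TD (T : HK C → ℤ → Prop) : Prop where
  iso : ∀ {K L : HK C} {c : ℤ}, Nonempty (K ≅ L) → T K c → T L c
  mid : ∀ {K L M : HK C} {a b : ℤ}, IsDistinguished K L M → T K a → T M b → T L (a + b)
  third : ∀ {K L M : HK C} {a b : ℤ}, IsDistinguished K L M → T K a → T L b → T M (b - a)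
  first : ∀ {K L M : HK C} {a b : ℤ}, IsDistinguished K L M → T L a → T M b → T K (a - b)
  uniq : ∀ {K : HK C} {c c' : ℤ}, T K c → T K c' → c = c'

variable [HasFiniteBiproducts C] {T : HK C → ℤ → Prop} (hT : TD T) {k : Type} [Field k]
  {D : Weights k C} (hD : IsWeightComplex D)

variable (T D) in
/-- The defect of the twist by `n` of the weight complex. -/
def QT (n : ℤ) (X : Sch k) (c : ℤ) : Prop := T (onHK (D.tw n) (D.W X)) c

include hT hD

theorem dfcT (n : ℤ) : Dfc True (QT T D n) where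
  iso hX e h := by
    obtain ⟨e⟩ := hD.iso hX e
    exact hT.iso ⟨((D.tw n).mapHomotopyCategory (ComplexShape.up ℤ)).mapIso e⟩ h
  total i j a b h ht hZ hU := by
    have h1 := hT.mid (onHK_triangle (D.tw n) (hD.triangle i j h ht)) hU hZ
    rwa [add_comm] at h1
  opened i j a b h ht hZ hX := hT.first (onHK_triangle (D.tw n) (hD.triangle i j h ht)) hX hZ
  closed i j a b h ht hX hU := hT.third (onHK_triangle (D.tw n) (hD.triangle i j h ht)) hU hX
  uniq h1 h2 := hT.uniq h1 h2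

lemma twistT {X Y : Sch k} {m : ℤ} (e : Nonempty (D.W X ≅ onHK (D.tw m) (D.W Y))) (n c : ℤ) :
    QT T D n X c ↔ QT T D (m + n) Y c := by
  obtain ⟨e⟩ := e
  obtain ⟨e1⟩ := hD.tw_add m n
  obtain ⟨e2⟩ := onHK_comp e1 (D.W Y)
  have h1 : onHK (D.tw n) (D.W X) ≅ onHK (D.tw (m + n)) (D.W Y) :=
    ((D.tw n).mapHomotopyCategory (ComplexShape.up ℤ)).mapIso e ≪≫ e2.symm
  exact ⟨fun h => hT.iso ⟨h1⟩ h, fun h => hT.iso ⟨h1.symm⟩ h⟩

lemma bundleT {B : Type} [CommRing B] [Algebra k B] [Algebra.FiniteType k B] {m : ℕ}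
    {g : Fin m → B} {U : Sch k} {j : U ⟶ aff k B} (hj : IsComplementOf g j) (n c : ℤ) :
    QT T D (n + (m - 1)) (jouS g) c ↔ QT T D n U c := by
  rw [twistT hT hD (hD.bundle B m g U j hj)]
  rw [show (1 - (m : ℤ)) + (n + (m - 1)) = n by ring]

/-- The affine spaces. -/
lemma spaceT (hp : ∀ n, QT T D n (aff k k) 0) (n : ℤ) (r : ℕ) :
    QT T D n (aff k (MvPolynomial (Fin r) k)) 0 := by
  have h1 := (bundleT hT hD (compl_id (k := k) k r) (n - r) 0).mpr (hp _)
  have h2 : n - r + (((r + 1 : ℕ) : ℤ) - 1) = n := by push_cast; ring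
  rw [h2] at h1
  exact isoQ (dfcT hT hD n) (jouOne k r) h1

lemma projT {n : ℤ} {X : Sch k} (hX : IsSmoothProjective X) {c : ℤ} (h : QT T D n X c) :
    T (inZero ((D.tw n).obj (D.h X))) c := by
  obtain ⟨e⟩ := hD.projective X hX
  refine hT.iso ⟨((D.tw n).mapHomotopyCategory (ComplexShape.up ℤ)).mapIso e ≪≫ ?_⟩ h
  exact (HomotopyCategory.quotient C (ComplexShape.up ℤ)).mapIso
    ((HomologicalComplex.singleMapHomologicalComplex (D.tw n) (ComplexShape.up ℤ) 0).app (D.h X))

lemma projT' {n : ℤ} {X : Sch k} (hX : IsSmoothProjective X) {c : ℤ}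
    (h : T (inZero ((D.tw n).obj (D.h X))) c) : QT T D n X c := by
  obtain ⟨e⟩ := hD.projective X hX
  refine hT.iso ⟨(((D.tw n).mapHomotopyCategory (ComplexShape.up ℤ)).mapIso e ≪≫ ?_).symm⟩ h
  exact (HomotopyCategory.quotient C (ComplexShape.up ℤ)).mapIso
    ((HomologicalComplex.singleMapHomologicalComplex (D.tw n) (ComplexShape.up ℤ) 0).app (D.h X))

end

section functors

variable {C : Type u} [Category.{v} C] [Preadditive C] [HasBinaryBiproducts C] [HasZeroObject C]
  {𝕜 : Type w} [Field 𝕜] {𝕜' : Type w'} [Field 𝕜'] (F : C ⥤ ModuleCat.{w} 𝕜) [F.Additive]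
  (G : C ⥤ ModuleCat.{w'} 𝕜') [G.Additive]

/-- The Euler characteristic. -/
def TOne (K : HK C) (c : ℤ) : Prop := RankOK F K ∧ alt (hdim F K) = c

/-- The difference of two Euler characteristics. -/
def TTwo (K : HK C) (c : ℤ) : Prop :=
  RankOK F K ∧ RankOK G K ∧ alt (hdim F K) - alt (hdim G K) = c

theorem tOne : TD (TOne F) where
  iso e h := ⟨h.1.iso e, by rw [← hdim_iso e]; exact h.2⟩
  mid := by
    rintro K L M a b ⟨x, y, z, h⟩ ⟨h1, e1⟩ ⟨h3, e3⟩
    have h2 := RankOK.mid h h1 h3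
    refine ⟨h2, ?_⟩
    have := alt_triangle h h1 h2 h3
    change alt (hdim F L) = alt (hdim F K) + alt (hdim F M) at this
    rw [this, e1, e3]
  third := by
    rintro K L M a b ⟨x, y, z, h⟩ ⟨h1, e1⟩ ⟨h2, e2⟩
    have h3 := RankOK.third h h1 h2
    refine ⟨h3, ?_⟩
    have := alt_triangle h h1 h2 h3
    change alt (hdim F L) = alt (hdim F K) + alt (hdim F M) at this
    omega
  first := by
    rintro K L M a b ⟨x, y, z, h⟩ ⟨h2, e2⟩ ⟨h3, e3⟩
    have h1 := RankOK.first h h2 h3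
    refine ⟨h1, ?_⟩
    have := alt_triangle h h1 h2 h3
    change alt (hdim F L) = alt (hdim F K) + alt (hdim F M) at this
    omega
  uniq h1 h2 := h1.2.symm.trans h2.2

variable {F G} in
lemma tTwo_iff {K : HK C} {c : ℤ} : TTwo F G K c ↔ ∃ a b, TOne F K a ∧ TOne G K b ∧ a - b = c :=
  ⟨fun h => ⟨_, _, ⟨h.1, rfl⟩, ⟨h.2.1, rfl⟩, h.2.2⟩, by
    rintro ⟨a, b, ⟨h1, rfl⟩, ⟨h2, rfl⟩, h⟩
    exact ⟨h1, h2, h⟩⟩

theorem tTwo : TD (TTwo F G) where
  iso e h := by
    obtain ⟨a, b, h1, h2, h3⟩ := tTwo_iff.mp h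
    exact tTwo_iff.mpr ⟨a, b, (tOne F).iso e h1, (tOne G).iso e h2, h3⟩
  mid hd h h' := by
    obtain ⟨a, b, h1, h2, h3⟩ := tTwo_iff.mp h
    obtain ⟨a', b', h1', h2', h3'⟩ := tTwo_iff.mp h'
    exact tTwo_iff.mpr ⟨_, _, (tOne F).mid hd h1 h1', (tOne G).mid hd h2 h2', by omega⟩
  third hd h h' := by
    obtain ⟨a, b, h1, h2, h3⟩ := tTwo_iff.mp h
    obtain ⟨a', b', h1', h2', h3'⟩ := tTwo_iff.mp h'
    exact tTwo_iff.mpr ⟨_, _, (tOne F).third hd h1 h1', (tOne G).third hd h2 h2', by omega⟩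
  first hd h h' := by
    obtain ⟨a, b, h1, h2, h3⟩ := tTwo_iff.mp h
    obtain ⟨a', b', h1', h2', h3'⟩ := tTwo_iff.mp h'
    exact tTwo_iff.mpr ⟨_, _, (tOne F).first hd h1 h1', (tOne G).first hd h2 h2', by omega⟩
  uniq h1 h2 := h1.2.2.symm.trans h2.2.2

variable {F G}

/-- An object in degree zero. -/
lemma one_inZero {M : C} {c : ℤ} : TOne F (inZero M) c ↔
    Module.Finite 𝕜 (F.obj M) ∧ ((Module.finrank 𝕜 (F.obj M) : ℕ) : ℤ) = c := by
  let K := (HomologicalComplex.single C (ComplexShape.up ℤ) 0).obj M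
  have e0 : K.X 0 ≅ M := HomologicalComplex.singleObjXSelf (ComplexShape.up ℤ) 0 M
  have hz : ∀ i : ℤ, (i < 0 ∨ 0 < i) → IsZero (K.X i) := fun i hi =>
    HomologicalComplex.isZero_single_obj_X (ComplexShape.up ℤ) 0 M i (by omega)
  have hb : Bdd K := ⟨0, 0, hz⟩
  have main : Module.Finite 𝕜 (F.obj M) → RankOK F (inZero M) ∧
      alt (hdim F (inZero M)) = ((Module.finrank 𝕜 (F.obj M) : ℕ) : ℤ) := by
    intro hM
    have hfin : ∀ i, Module.Finite 𝕜 (F.obj (K.X i)) := by
      intro i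
      rcases eq_or_ne i 0 with h5 | h5
      · rw [h5]
        exact finite_iso ⟨F.mapIso e0.symm⟩ hM
      · have h6 : IsZero (F.obj (K.X i)) := F.map_isZero (hz i (by omega))
        have h7 : Subsingleton (F.obj (K.X i)) := ModuleCat.subsingleton_of_isZero h6
        infer_instance
    have h4 := alt_terms (F := F) hb hfin
    have h5 := alt_eq_sum (h := fun n => Module.finrank 𝕜 (F.obj (K.X n))) (a := 0) (b := 0)
      (fun n hn => by
        have h5 : IsZero (F.obj (K.X n)) := F.map_isZero (hz n hn)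
        have h6 : Subsingleton (F.obj (K.X n)) := ModuleCat.subsingleton_of_isZero h5
        exact Module.finrank_zero_of_subsingleton)
    rw [Finset.Icc_self, Finset.sum_singleton, Int.negOnePow_zero, Units.val_one, one_mul,
      finrank_iso ⟨F.mapIso e0⟩] at h5
    exact ⟨h4.1, h4.2.trans h5⟩
  constructor
  · rintro ⟨h1, h2⟩
    have hM : Module.Finite 𝕜 (F.obj M) := finite_iso (coh_single F M) (h1.1 0)
    exact ⟨hM, (main hM).2.symm.trans h2⟩
  · rintro ⟨h1, h2⟩
    exact ⟨(main h1).1, (main h1).2.trans h2⟩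

lemma finite_sum {M N : C} (hM : Module.Finite 𝕜 (F.obj M)) (hN : Module.Finite 𝕜 (F.obj N)) :
    Module.Finite 𝕜 (F.obj (M ⊞ N)) ∧ Module.finrank 𝕜 (F.obj (M ⊞ N)) =
      Module.finrank 𝕜 (F.obj M) + Module.finrank 𝕜 (F.obj N) := by
  have e : F.obj (M ⊞ N) ≃ₗ[𝕜] (F.obj M × F.obj N) :=
    LinearEquiv.ofLinearMap ((F.map biprod.fst).hom.prod (F.map biprod.snd).hom)
      ((F.map biprod.inl).hom.coprod (F.map biprod.inr).hom)
      (by
        apply LinearMap.ext
        rintro ⟨x, y⟩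
        have h1 : F.map (biprod.inl : M ⟶ M ⊞ N) ≫ F.map biprod.fst = 𝟙 _ := by
          rw [← F.map_comp, biprod.inl_fst, F.map_id]
        have h2 : F.map (biprod.inr : N ⟶ M ⊞ N) ≫ F.map biprod.snd = 𝟙 _ := by
          rw [← F.map_comp, biprod.inr_snd, F.map_id]
        have h3 : F.map (biprod.inl : M ⟶ M ⊞ N) ≫ F.map biprod.snd = 0 := by
          rw [← F.map_comp, biprod.inl_snd, F.map_zero]
        have h4 : F.map (biprod.inr : N ⟶ M ⊞ N) ≫ F.map biprod.fst = 0 := by
          rw [← F.map_comp, biprod.inr_fst, F.map_zero]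
        have a1 := congrArg (fun g => g.hom x) h1
        have a2 := congrArg (fun g => g.hom y) h2
        have a3 := congrArg (fun g => g.hom x) h3
        have a4 := congrArg (fun g => g.hom y) h4
        simp only [ModuleCat.hom_comp, LinearMap.comp_apply, ModuleCat.hom_id, LinearMap.id_apply,
          ModuleCat.hom_zero, LinearMap.zero_apply] at a1 a2 a3 a4
        simp only [LinearMap.comp_apply, LinearMap.coprod_apply, LinearMap.prod_apply,
          Function.prod_apply, map_add, LinearMap.id_apply, a1, a2, a3, a4]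
        exact Prod.ext (add_zero x) (zero_add y))
      (by
        apply LinearMap.ext
        intro x
        have h1 : F.map (biprod.fst : M ⊞ N ⟶ M) ≫ F.map biprod.inl +
            F.map (biprod.snd : M ⊞ N ⟶ N) ≫ F.map biprod.inr = 𝟙 _ := by
          rw [← F.map_comp, ← F.map_comp, ← F.map_add, biprod.total, F.map_id]
        have a1 := congrArg (fun g => g.hom x) h1
        exact a1)
  refine ⟨Module.Finite.equiv e.symm, ?_⟩
  rw [e.finrank_eq, Module.finrank_prod]

/-- Sums of motives: one functor. -/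
lemma fin_sumOf {S : C → Prop} (T : C ⥤ C) [T.Additive]
    (hS : ∀ M, S M → Module.Finite 𝕜 (F.obj (T.obj M))) {M : C} (hM : SumOf S M) :
    Module.Finite 𝕜 (F.obj (T.obj M)) := by
  induction hM with
  | zero M h =>
    have h1 : Subsingleton (F.obj (T.obj M)) :=
      ModuleCat.subsingleton_of_isZero (F.map_isZero (T.map_isZero h))
    infer_instance
  | of M h => exact hS M h
  | sum M N _ _ h1 h2 =>
    have : PreservesBinaryBiproduct M N T :=
      (preservesBinaryBiproducts_of_preservesBiproducts T).preserves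
    exact finite_iso ⟨F.mapIso (T.mapBiprod M N).symm⟩ (finite_sum h1 h2).1
  | iso M N e _ h => exact finite_iso ⟨F.mapIso (T.mapIso e.some)⟩ h

/-- Sums of motives: two functors with the same dimensions. -/
lemma eq_sumOf {S : C → Prop} (T : C ⥤ C) [T.Additive]
    (hS : ∀ M, S M → Module.Finite 𝕜 (F.obj (T.obj M)) ∧ Module.Finite 𝕜' (G.obj (T.obj M)) ∧
      Module.finrank 𝕜 (F.obj (T.obj M)) = Module.finrank 𝕜' (G.obj (T.obj M)))
    {M : C} (hM : SumOf S M) : Module.Finite 𝕜 (F.obj (T.obj M)) ∧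
      Module.Finite 𝕜' (G.obj (T.obj M)) ∧
        Module.finrank 𝕜 (F.obj (T.obj M)) = Module.finrank 𝕜' (G.obj (T.obj M)) := by
  induction hM with
  | zero M h =>
    have h1 : Subsingleton (F.obj (T.obj M)) :=
      ModuleCat.subsingleton_of_isZero (F.map_isZero (T.map_isZero h))
    have h2 : Subsingleton (G.obj (T.obj M)) :=
      ModuleCat.subsingleton_of_isZero (G.map_isZero (T.map_isZero h))
    refine ⟨inferInstance, inferInstance, ?_⟩
    rw [Module.finrank_zero_of_subsingleton, Module.finrank_zero_of_subsingleton]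
  | of M h => exact hS M h
  | sum M N _ _ h1 h2 =>
    have : PreservesBinaryBiproduct M N T :=
      (preservesBinaryBiproducts_of_preservesBiproducts T).preserves
    have e1 : Nonempty (F.obj (T.obj M ⊞ T.obj N) ≅ F.obj (T.obj (M ⊞ N))) :=
      ⟨F.mapIso (T.mapBiprod M N).symm⟩
    have e2 : Nonempty (G.obj (T.obj M ⊞ T.obj N) ≅ G.obj (T.obj (M ⊞ N))) :=
      ⟨G.mapIso (T.mapBiprod M N).symm⟩
    have a1 := finite_sum h1.1 h2.1
    have a2 := finite_sum h1.2.1 h2.2.1
    refine ⟨finite_iso e1 a1.1, finite_iso e2 a2.1, ?_⟩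
    rw [← finrank_iso e1, ← finrank_iso e2, a1.2, a2.2, h1.2.2, h2.2.2]
  | iso M N e _ h =>
    have e1 : Nonempty (F.obj (T.obj M) ≅ F.obj (T.obj N)) := ⟨F.mapIso (T.mapIso e.some)⟩
    have e2 : Nonempty (G.obj (T.obj M) ≅ G.obj (T.obj N)) := ⟨G.mapIso (T.mapIso e.some)⟩
    refine ⟨finite_iso e1 h.1, finite_iso e2 h.2.1, ?_⟩
    rw [← finrank_iso e1, ← finrank_iso e2, h.2.2]

/-- Sums of motives: vanishing. -/
lemma zero_sumOf {S : C → Prop} (T : C ⥤ C) [T.Additive]
    (hS : ∀ M, S M → Subsingleton (F.obj (T.obj M))) {M : C} (hM : SumOf S M) :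
    Subsingleton (F.obj (T.obj M)) := by
  induction hM with
  | zero M h => exact ModuleCat.subsingleton_of_isZero (F.map_isZero (T.map_isZero h))
  | of M h => exact hS M h
  | sum M N _ _ h1 h2 =>
    have : PreservesBinaryBiproduct M N T :=
      (preservesBinaryBiproducts_of_preservesBiproducts T).preserves
    have a1 := finite_sum (F := F) (M := T.obj M) (N := T.obj N) inferInstance inferInstance
    have := a1.1
    have h3 : Subsingleton (F.obj (T.obj M ⊞ T.obj N)) := by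
      rw [← Module.finrank_zero_iff (R := 𝕜), a1.2, Module.finrank_zero_of_subsingleton,
        Module.finrank_zero_of_subsingleton]
    exact (F.mapIso (T.mapBiprod M N)).toLinearEquiv.toEquiv.subsingleton
  | iso M N e _ h => exact (F.mapIso (T.mapIso e.some)).toLinearEquiv.symm.toEquiv.subsingleton

section schemes

variable [HasFiniteBiproducts C] {k : Type} [Field k] {D : Weights k C} (hD : IsWeightComplex D)

include hD

/-- The Euler characteristics are defined. -/
theorem one_exists {n : ℤ} {N : ℕ} (h : ∀ Y : Sch k, IsSmoothProjective Y →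
    topologicalKrullDim Y.left ≤ N → Module.Finite 𝕜 (F.obj ((D.tw n).obj (D.h Y)))) (X : Sch k)
    (hX : FT True X) (hN : topologicalKrullDim X.left ≤ N) : ∃ c, QT (TOne F) D n X c := by
  obtain ⟨K, hb, ⟨e⟩, hK⟩ := hD.terms X hX N hN
  have h1 : ∀ i, Module.Finite 𝕜 (F.obj ((D.tw n).obj (K.X i))) := fun i =>
    fin_sumOf (D.tw n) (by
      rintro M ⟨Y, a1, a2, ⟨e⟩⟩
      exact finite_iso ⟨F.mapIso ((D.tw n).mapIso e)⟩ (h Y a1 a2)) (hK i)
  obtain ⟨a, b, hz⟩ := hb
  have h2 := alt_terms (F := F) (K := ((D.tw n).mapHomologicalComplex (ComplexShape.up ℤ)).obj K)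
    ⟨a, b, fun i hi => (D.tw n).map_isZero (hz i hi)⟩ h1
  exact ⟨_, (tOne F).iso ⟨((D.tw n).mapHomotopyCategory (ComplexShape.up ℤ)).mapIso e.symm⟩
    ⟨h2.1, rfl⟩⟩

/-- Equal dimensions for smooth projective schemes give equal Euler characteristics. -/
theorem two_zero {n : ℤ} {N : ℕ} (h : ∀ Y : Sch k, IsSmoothProjective Y →
    topologicalKrullDim Y.left ≤ N → Module.Finite 𝕜 (F.obj ((D.tw n).obj (D.h Y))) ∧
      Module.Finite 𝕜' (G.obj ((D.tw n).obj (D.h Y))) ∧
        Module.finrank 𝕜 (F.obj ((D.tw n).obj (D.h Y))) =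
          Module.finrank 𝕜' (G.obj ((D.tw n).obj (D.h Y)))) (X : Sch k)
    (hX : FT True X) (hN : topologicalKrullDim X.left ≤ N) : QT (TTwo F G) D n X 0 := by
  obtain ⟨K, hb, ⟨e⟩, hK⟩ := hD.terms X hX N hN
  have h1 := fun i => eq_sumOf (F := F) (G := G) (D.tw n) (by
      rintro M ⟨Y, a1, a2, ⟨e⟩⟩
      obtain ⟨b1, b2, b3⟩ := h Y a1 a2
      have e1 : Nonempty (F.obj ((D.tw n).obj (D.h Y)) ≅ F.obj ((D.tw n).obj M)) :=
        ⟨F.mapIso ((D.tw n).mapIso e)⟩
      have e2 : Nonempty (G.obj ((D.tw n).obj (D.h Y)) ≅ G.obj ((D.tw n).obj M)) :=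
        ⟨G.mapIso ((D.tw n).mapIso e)⟩
      exact ⟨finite_iso e1 b1, finite_iso e2 b2, by
        rw [← finrank_iso e1, ← finrank_iso e2, b3]⟩) (hK i)
  obtain ⟨a, b, hz⟩ := hb
  have hbb : Bdd (((D.tw n).mapHomologicalComplex (ComplexShape.up ℤ)).obj K) :=
    ⟨a, b, fun i hi => (D.tw n).map_isZero (hz i hi)⟩
  have h2 := alt_terms (F := F) hbb (fun i => (h1 i).1)
  have h3 := alt_terms (F := G) hbb (fun i => (h1 i).2.1)
  refine (tTwo F G).iso ⟨((D.tw n).mapHomotopyCategory (ComplexShape.up ℤ)).mapIso e.symm⟩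
    ⟨h2.1, h3.1, ?_⟩
  rw [sub_eq_zero]
  refine h2.2.trans (Eq.trans ?_ h3.2.symm)
  congr 1
  funext i
  exact (h1 i).2.2

/-- Vanishing for smooth projective schemes. -/
theorem one_zero {n : ℤ} {N : ℕ} (h : ∀ Y : Sch k, IsSmoothProjective Y →
    topologicalKrullDim Y.left ≤ N → Subsingleton (F.obj ((D.tw n).obj (D.h Y)))) (X : Sch k)
    (hX : FT True X) (hN : topologicalKrullDim X.left ≤ N) : QT (TOne F) D n X 0 := by
  obtain ⟨K, hb, ⟨e⟩, hK⟩ := hD.terms X hX N hN
  have h1 : ∀ i, Subsingleton (F.obj ((D.tw n).obj (K.X i))) := fun i =>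
    zero_sumOf (D.tw n) (by
      rintro M ⟨Y, a1, a2, ⟨e⟩⟩
      have := h Y a1 a2
      exact (F.mapIso ((D.tw n).mapIso e)).toLinearEquiv.symm.toEquiv.subsingleton) (hK i)
  obtain ⟨a, b, hz⟩ := hb
  have h2 := alt_terms (F := F) (K := ((D.tw n).mapHomologicalComplex (ComplexShape.up ℤ)).obj K)
    ⟨a, b, fun i hi => (D.tw n).map_isZero (hz i hi)⟩ (fun i => by
      have := h1 i
      change Module.Finite 𝕜 (F.obj ((D.tw n).obj (K.X i)))
      infer_instance)
  refine (tOne F).iso ⟨((D.tw n).mapHomotopyCategory (ComplexShape.up ℤ)).mapIso e.symm⟩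
    ⟨h2.1, h2.2.trans ?_⟩
  have h8 : (fun i => Module.finrank 𝕜 (F.obj
      ((((D.tw n).mapHomologicalComplex (ComplexShape.up ℤ)).obj K).X i))) = fun _ => 0 := by
    funext i
    have := h1 i
    change Module.finrank 𝕜 (F.obj ((D.tw n).obj (K.X i))) = 0
    exact Module.finrank_zero_of_subsingleton
  rw [h8]
  unfold alt
  simp

end schemes

end functors

end Pool.Agent.Helper24.KF
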